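import Mathlib
import Pool.Agent.H.MP_703902_co.C

set_option autoImplicit false

namespace Pool.Agent.Results.MP_703902_co.Ladder
open Pool.Agent.H.MP_703902_co

theorem result : ∃ (V : Type) (G : SimpleGraph V) (k : ℕ), Infinite V ∧ Countable V ∧ G.Connected ∧
    (∀ x, (G.neighborSet x).encard ≤ k) ∧ (∀ a b, ∃ φ : G ≃g G, φ a = b) ∧
    ∀ u, ∃ v, G.Adj u v ∧ ∀ ν : MeasureTheory.Measure ℝ,
      D.IsMatchingMeasure (G.deleteIncidenceSet u) v k ν → 0 < ν {0} := by
  refine ⟨C.V, C.lad, 3, inferInstance, inferInstance, C.conn, fun x => ?_, C.vt,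
    fun u => ⟨(u.1, !u.2), C.memN.2 (Or.inr (Or.inr rfl)), C.main u _⟩⟩
  rw [show C.lad.neighborSet x = C.N x from rfl, Set.encard_coe_eq_coe_finsetCard]
  exact_mod_cast Finset.card_le_three

end Pool.Agent.Results.MP_703902_co.Ladder
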